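import Mathlib

set_option autoImplicit false

namespace Pool.Agent.Paratop

open Set Topology Pointwise

section general

variable {X : Type} [LinearOrder X]

theorem trans [DenselyOrdered X] [NoMinOrder X] [NoMaxOrder X] (hc : ∀ z : X, (Ici z).Countable) (x y : X) :
    ∃ g : X ≃o X, g x = y := by
  obtain ⟨z, hz⟩ := exists_lt (min x y)
  have hzx : z < x := lt_of_lt_of_le hz (min_le_left _ _)
  have hzy : z < y := lt_of_lt_of_le hz (min_le_right _ _)
  have hcount : Countable (Ioi z) := ((hc z).mono Ioi_subset_Ici_self).to_subtype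
  have hne : Nonempty (Ioi z) := ⟨⟨x, hzx⟩⟩
  obtain ⟨e⟩ := Order.iso_of_countable_dense (Ioi z) ℚ
  set φ : ℚ → X → X := fun c t => if h : z < t then (e.symm (e ⟨t, h⟩ + c)).1 else t with hφ
  have h1 : ∀ (c : ℚ) (t : X) (h : z < t), φ c t = (e.symm (e ⟨t, h⟩ + c)).1 := fun c t h => dif_pos h
  have h2 : ∀ (c : ℚ) (t : X), ¬ z < t → φ c t = t := fun c t h => dif_neg h
  have h3 : ∀ (c : ℚ) (t : X), z < t → z < φ c t := by
    intro c t h
    rw [h1 c t h]
    exact (e.symm (e ⟨t, h⟩ + c)).2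
  have hmono : ∀ c, StrictMono (φ c) := by
    intro c s t hst
    by_cases hs : z < s
    · have ht : z < t := hs.trans hst
      rw [h1 c s hs, h1 c t ht]
      have : e.symm (e ⟨s, hs⟩ + c) < e.symm (e ⟨t, ht⟩ + c) := by
        rw [e.symm.lt_iff_lt]
        have : e ⟨s, hs⟩ < e ⟨t, ht⟩ := e.lt_iff_lt.2 hst
        linarith
      exact this
    · by_cases ht : z < t
      · rw [h2 c s hs]
        exact lt_of_le_of_lt (not_lt.1 hs) (h3 c t ht)
      · rw [h2 c s hs, h2 c t ht]; exact hst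
  have hinv : ∀ c, Function.RightInverse (φ (-c)) (φ c) := by
    intro c t
    by_cases ht : z < t
    · rw [h1 c _ (h3 (-c) t ht)]
      have : (⟨φ (-c) t, h3 (-c) t ht⟩ : Ioi z) = e.symm (e ⟨t, ht⟩ + -c) := Subtype.ext (h1 (-c) t ht)
      rw [this, e.apply_symm_apply]
      simp
    · rw [h2 (-c) t ht, h2 c t ht]
  refine ⟨StrictMono.orderIsoOfRightInverse (φ (e ⟨y, hzy⟩ - e ⟨x, hzx⟩)) (hmono _) _ (hinv _), ?_⟩
  show φ (e ⟨y, hzy⟩ - e ⟨x, hzx⟩) x = y
  rw [h1 _ x hzx]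
  simp

/-- the topology of pointwise convergence w.r.t. upper sets -/
instance topG : TopologicalSpace (X ≃o X) :=
  TopologicalSpace.generateFrom {S | ∃ x y : X, S = {h : X ≃o X | y ≤ h x}}

theorem sub_open (x y : X) : IsOpen {h : X ≃o X | y ≤ h x} :=
  TopologicalSpace.isOpen_generateFrom_of_mem ⟨x, y, rfl⟩

instance contMul : ContinuousMul (X ≃o X) where
  continuous_mul := by
    refine continuous_generateFrom_iff.2 ?_
    rintro S ⟨x, y, rfl⟩
    have : ((fun p : (X ≃o X) × (X ≃o X) => p.1 * p.2) ⁻¹' {h : X ≃o X | y ≤ h x}) =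
        ⋃ z : X, {h : X ≃o X | y ≤ h z} ×ˢ {k : X ≃o X | z ≤ k x} := by
      ext ⟨h, k⟩
      simp only [mem_preimage, mem_iUnion, mem_prod]
      constructor
      · intro hh
        exact ⟨k x, hh, le_refl _⟩
      · rintro ⟨z, h1, h2⟩
        show y ≤ h (k x)
        exact le_trans h1 (h.monotone h2)
    rw [this]
    exact isOpen_iUnion (fun z => (sub_open z y).prod (sub_open x z))

theorem basis_one (V : Set (X ≃o X)) (hV : IsOpen V) (h1 : (1 : X ≃o X) ∈ V) :
    ∃ E : Set X, E.Finite ∧ {h : X ≃o X | ∀ x ∈ E, x ≤ h x} ⊆ V := by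
  induction hV with
  | basic S hS =>
    obtain ⟨x, y, rfl⟩ := hS
    exact ⟨{x}, finite_singleton x, fun h hh => le_trans h1 (hh x rfl)⟩
  | univ => exact ⟨∅, finite_empty, fun _ _ => trivial⟩
  | inter S T _ _ ihS ihT =>
    obtain ⟨E1, f1, g1⟩ := ihS h1.1
    obtain ⟨E2, f2, g2⟩ := ihT h1.2
    exact ⟨E1 ∪ E2, f1.union f2, fun h hh => ⟨g1 (fun x hx => hh x (Or.inl hx)), g2 (fun x hx => hh x (Or.inr hx))⟩⟩
  | sUnion S _ ih =>
    obtain ⟨T, hT, h1T⟩ := h1
    obtain ⟨E, f, g⟩ := ih T hT h1T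
    exact ⟨E, f, fun h hh => ⟨T, hT, g hh⟩⟩

theorem main_gen [DenselyOrdered X] [NoMinOrder X] [NoMaxOrder X] [Nonempty X]
    (hc : ∀ z : X, (Ici z).Countable) (hu : ¬ (univ : Set X).Countable) :
    ¬ ((∀ U ∈ 𝓝 (1 : X ≃o X), ∃ F : Set (X ≃o X), F.Countable ∧ U * F = Set.univ) →
      (∀ U ∈ 𝓝 (1 : X ≃o X), ∃ F : Set (X ≃o X), F.Countable ∧ F * U = Set.univ)) := by
  intro H
  have hR : ∀ U ∈ 𝓝 (1 : X ≃o X), ∃ F : Set (X ≃o X), F.Countable ∧ U * F = Set.univ := by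
    intro U hU
    obtain ⟨V, hVU, hV, h1⟩ := mem_nhds_iff.1 hU
    obtain ⟨E, hE, hEV⟩ := basis_one V hV h1
    obtain ⟨m, hm⟩ := hE.bddBelow
    obtain ⟨M, hM⟩ := hE.bddAbove
    choose k hk using fun c : X => trans hc m c
    refine ⟨(fun c => (k c)⁻¹) '' (Ici m), (hc m).image _, ?_⟩
    apply eq_univ_of_forall
    intro g
    rw [mem_mul]
    refine ⟨g * k (max (g⁻¹ M) m), ?_, (k (max (g⁻¹ M) m))⁻¹, ⟨_, le_max_right _ _, rfl⟩, by group⟩
    apply hVU
    apply hEV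
    intro x hx
    show x ≤ g (k (max (g⁻¹ M) m) x)
    have h1 : g⁻¹ M ≤ k (max (g⁻¹ M) m) x := by
      calc g⁻¹ M ≤ max (g⁻¹ M) m := le_max_left _ _
        _ = k (max (g⁻¹ M) m) m := (hk _).symm
        _ ≤ k (max (g⁻¹ M) m) x := (k _).monotone (hm hx)
    have h2 := g.monotone h1
    rw [RelIso.apply_inv_self] at h2
    exact le_trans (hM hx) h2
  obtain ⟨x0⟩ := (inferInstance : Nonempty X)
  obtain ⟨F, hF, hFU⟩ := H hR {h : X ≃o X | x0 ≤ h x0} ((sub_open x0 x0).mem_nhds (le_refl x0))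
  have hcount : (⋃ f ∈ F, Ici (f x0)).Countable := hF.biUnion (fun f _ => hc _)
  have hne : (⋃ f ∈ F, Ici (f x0)) ≠ univ := by
    intro h
    rw [h] at hcount
    exact hu hcount
  obtain ⟨w, hw⟩ := (ne_univ_iff_exists_notMem _).1 hne
  obtain ⟨g, hg⟩ := trans hc x0 w
  have hgF : g ∈ F * {h : X ≃o X | x0 ≤ h x0} := by rw [hFU]; trivial
  obtain ⟨f, hf, u, hu', hfu⟩ := mem_mul.1 hgF
  apply hw
  refine mem_iUnion₂.2 ⟨f, hf, ?_⟩
  show f x0 ≤ w
  rw [← hg, ← hfu]
  exact f.monotone hu'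

end general

abbrev T : Type := (Cardinal.aleph 1).ord.ToType

theorem T_init (a : T) : (Iio a).Countable := by
  have h0 : (Ordinal.typein (α := T) (· < ·) a) < (Cardinal.aleph 1).ord := Ordinal.typein_lt_self a
  have h : Cardinal.mk (Iio a) < Cardinal.aleph 1 := by
    have := Cardinal.lt_ord.1 h0
    exact this
  rw [← Cardinal.le_aleph0_iff_set_countable]
  have h' : Cardinal.aleph 1 = Order.succ Cardinal.aleph0 := Cardinal.succ_aleph0.symm
  exact Order.lt_succ_iff.1 (lt_of_lt_of_eq h h')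

theorem T_unc : ¬ (univ : Set T).Countable := by
  intro h
  rw [← Cardinal.le_aleph0_iff_set_countable, Cardinal.mk_univ, Cardinal.mk_ord_toType] at h
  exact absurd h (not_le.2 Cardinal.aleph0_lt_aleph_one)

abbrev XX : Type := Tᵒᵈ ×ₗ ℚ

theorem hcX (z : XX) : (Ici z).Countable := by
  have h1 : (Iic (OrderDual.ofDual (ofLex z).1)).Countable := by
    rw [← Iio_insert]
    exact (T_init _).insert _
  have h2 : ((Iic (OrderDual.ofDual (ofLex z).1)) ×ˢ (univ : Set ℚ)).Countable := h1.prod (Set.to_countable _)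
  refine (h2.image (fun p => (toLex (OrderDual.toDual p.1, p.2) : XX))).mono ?_
  intro w hw
  refine ⟨(OrderDual.ofDual (ofLex w).1, (ofLex w).2), ⟨?_, trivial⟩, rfl⟩
  exact Prod.Lex.monotone_fst _ _ hw

theorem huX : ¬ (univ : Set XX).Countable := by
  intro h
  apply T_unc
  have := h.image (fun z : XX => OrderDual.ofDual (ofLex z).1)
  refine this.mono ?_
  intro a _
  exact ⟨toLex (OrderDual.toDual a, 0), trivial, rfl⟩

theorem main :
    ¬ (∀ (G : Type) [Group G] [TopologicalSpace G] [ContinuousMul G],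
      (∀ U ∈ 𝓝 (1 : G), ∃ F : Set G, F.Countable ∧ U * F = Set.univ) →
      (∀ U ∈ 𝓝 (1 : G), ∃ F : Set G, F.Countable ∧ F * U = Set.univ)) := by
  intro H
  have hT : Nonempty T := by
    by_contra h
    rw [not_nonempty_iff] at h
    exact T_unc (Set.to_countable _)
  have hne : Nonempty XX := ⟨toLex (OrderDual.toDual hT.some, 0)⟩
  exact main_gen hcX huX (H (XX ≃o XX))

end Pool.Agent.Paratop
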